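import Mathlib
import Pool.Agent.Lib_helper15.STE.Defs

/-! # Steinhaus near the ball, harmonic analysis half: definitions -/

open MeasureTheory Filter Topology
open Pool.Agent.Lib_helper15.STE

namespace STH

/-- monomials -/
def mon (i j k : ℕ) (x : E3) : ℝ := x 0 ^ i * x 1 ^ j * x 2 ^ k

/-- polynomial functions of degree at most `n` -/
def V (n : ℕ) : Submodule ℝ (E3 → ℝ) :=
  Submodule.span ℝ {p | ∃ i j k : ℕ, i + j + k ≤ n ∧ p = mon i j k}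

/-- inner product on the sphere -/
noncomputable def ip (p q : E3 → ℝ) : ℝ := ∫ x, p x * q x ∂sig

/-- polynomial functions of degree `≤ n`, orthogonal on the sphere to those of degree `< n` -/
structure HH (n : ℕ) (h : E3 → ℝ) : Prop where
  mem : h ∈ V n
  orth : ∀ m, m < n → ∀ q ∈ V m, ip h q = 0

/-- `f` is the sequence of harmonic components of `F` -/
structure Dec (F : E3 → ℝ) (f : ℕ → E3 → ℝ) : Prop where
  hh : ∀ n, HH n (f n)
  proj : ∀ n, ∀ q ∈ V n, ip (fun x => F x - ∑ k ∈ Finset.range (n + 1), f k x) q = 0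
  lim : Tendsto (fun n => ip (fun x => F x - ∑ k ∈ Finset.range (n + 1), f k x)
    (fun x => F x - ∑ k ∈ Finset.range (n + 1), f k x)) atTop (𝓝 0)

/-- the class of functions for which rotations can be differentiated -/
structure Good (F : E3 → ℝ) : Prop where
  meas : Measurable F
  lip : ∃ C : ℝ, ∀ x y : E3, ‖x‖ = 1 → ‖y‖ = 1 → |F x - F y| ≤ C * ‖x - y‖
  diff : ∀ᵐ x ∂sig, DifferentiableAt ℝ F x

/-- Legendre polynomials of degree at most 6 -/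
noncomputable def LP : ℕ → ℝ → ℝ
  | 0, _ => 1
  | 1, τ => τ
  | 2, τ => (3 * τ ^ 2 - 1) / 2
  | 3, τ => (5 * τ ^ 3 - 3 * τ) / 2
  | 4, τ => (35 * τ ^ 4 - 30 * τ ^ 2 + 3) / 8
  | 5, τ => (63 * τ ^ 5 - 70 * τ ^ 3 + 15 * τ) / 8
  | 6, τ => (231 * τ ^ 6 - 315 * τ ^ 4 + 105 * τ ^ 2 - 5) / 16
  | _, _ => 0

/-- the quadratic form of the whole sphere at the axis `ν` -/
noncomputable def AA (n : ℕ) (ν : E3) (h : E3 → ℝ) : ℝ :=
  ip (XX ν h) (XX ν h) - ip h h + h ν ^ 2 / (2 * n + 1)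

/-- quadratic forms without `xz` and `yz` terms -/
def Q2 (a b c d : ℝ) (x : E3) : ℝ := a * x 0 ^ 2 + b * x 1 ^ 2 + c * x 2 ^ 2 + d * (x 0 * x 1)

/-- harmonic cubic forms -/
def Q3 (c : Fin 7 → ℝ) (x : E3) : ℝ :=
  c 0 * (x 2 * (2 * x 2 ^ 2 - 3 * x 0 ^ 2 - 3 * x 1 ^ 2)) +
  c 1 * (x 0 * (4 * x 2 ^ 2 - x 0 ^ 2 - x 1 ^ 2)) +
  c 2 * (x 1 * (4 * x 2 ^ 2 - x 0 ^ 2 - x 1 ^ 2)) +
  c 3 * (x 2 * (x 0 ^ 2 - x 1 ^ 2)) + c 4 * (x 0 * x 1 * x 2) +
  c 5 * (x 0 ^ 3 - 3 * x 0 * x 1 ^ 2) + c 6 * (3 * x 0 ^ 2 * x 1 - x 1 ^ 3)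

/-- three axes orthogonal to the third coordinate axis, at angles of 60 degrees -/
noncomputable def ax (k : Fin 3) : E3 :=
  !₂[Real.cos (k.1 * (Real.pi / 3)), Real.sin (k.1 * (Real.pi / 3)), 0]

/-- `H` is an invariant probability measure on a set of isometries `γ g` -/
structure Haar {Γ : Type} [MeasurableSpace Γ] (H : Measure Γ) (γ : Γ → (E3 ≃ₗᵢ[ℝ] E3)) : Prop where
  prob : IsProbabilityMeasure H
  meas : Measurable fun p : Γ × E3 => γ p.1 p.2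
  inv : ∀ (k : E3 ≃ₗᵢ[ℝ] E3) (x y : E3),
    H.map (fun g => (γ g x, γ g y)) = H.map (fun g => (γ g (k x), γ g (k y)))

/-- the functional of the whole sphere at the third axis -/
noncomputable def A1 (p : E3 → ℝ) : ℝ :=
  ip (XX (e 2) p) (XX (e 2) p) - ip p p + 1 / 2 * ∫ τ in (-1:ℝ)..1, cm p τ ^ 2

end STH
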